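import Pool.Agent.N277.K17.Pts

/-!
# K17-LPR: `L(E/K, s) = L(E/ℚ, s) L(E_m/ℚ, s)` for `17a2` and all quadratic fields

Adaptation of `Pool/Agent/R428/OP/LProd.lean`.
-/

set_option autoImplicit false

namespace Pool.Agent.N277.K17

open NumberField IsDedekindDomain Filter Pool.Agent.H921R2.TatePole
open Pool.Agent.Y682.XF (base a factor pts)
open Pool.Agent.N871.S17 (WN ap_WN ap_two ap_WN_sum sum_dvd sum_ndvd ap_Em ap_Em_two)
open Pool.Agent.N974.Gen (E17 ap17_2)
open Pool.Agent.N875.P17 (Em)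
open Pool.Agent.N875.K17 (Qd Wm)
open Pool.Agent.W97.MT (ap affCount)
open W165.CE (pw)

lemma ap_one (p : ℕ) (hp : p.Prime) : ap (WN 1) p = ap E17 p := by
  rw [ap_WN (by norm_num) p hp]
  simp

/-- the coefficients of the twist -/
lemma ap_Wm (m : ℤ) (p : ℕ) (hp : p.Prime) : ap (Wm m) p = chi m p * ap (WN 1) p := by
  have hF : Fact p.Prime := ⟨hp⟩
  rw [ap_one p hp]
  unfold Pool.Agent.N875.K17.Wm chi
  by_cases h4 : m % 4 = 1
  · rw [if_pos h4]
    by_cases hp2 : p = 2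
    · subst hp2
      rw [if_pos rfl, ap_two h4, ap17_2]
      by_cases h8 : m % 8 = 1
      · rw [if_pos h8, if_pos h8]; norm_num
      · rw [if_neg h8, if_neg h8, if_pos (by omega)]; norm_num
    · rw [if_neg hp2, ap_WN_sum hp2 h4]
      by_cases hd : (p : ℤ) ∣ m
      · have h0 : jacobiSym m p = 0 := by
          rw [← jacobiSym.legendreSym.to_jacobiSym, legendreSym.eq_zero_iff]
          exact (ZMod.intCast_zmod_eq_zero_iff_dvd _ _).2 hd
        rw [sum_dvd hp2 hd, h0]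
        ring
      · rw [sum_ndvd hp2 hd]
        ring
  · rw [if_neg h4]
    by_cases hp2 : p = 2
    · subst hp2
      rw [if_pos rfl, ap_Em_two, if_neg (by omega), if_neg (by omega)]
      ring
    · rw [if_neg hp2, ap_Em p hp hp2]
      ring

lemma chi_cases (m : ℤ) (p : ℕ) : chi m p = 0 ∨ chi m p = 1 ∨ chi m p = -1 := by
  unfold chi
  split_ifs
  · exact Or.inr (Or.inl rfl)
  · exact Or.inr (Or.inr rfl)
  · exact Or.inl rfl
  · exact jacobiSym.trichotomy m p

/-- the bad primes of the twist -/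
lemma dvd_disc (m : ℤ) (hsq : Squarefree m) (p : ℕ) (hp : p.Prime) :
    (p : ℤ) ∣ (Wm m).Δ ↔ p = 17 ∨ chi m p = 0 := by
  have hF : Fact p.Prime := ⟨hp⟩
  have hpZ : Prime (p : ℤ) := Nat.prime_iff_prime_int.1 hp
  have h17 : (p : ℤ) ∣ 17 ^ 2 ↔ p = 17 := by
    constructor
    · intro h
      have h1 := hpZ.dvd_of_dvd_pow h
      have h2 : p ∣ 17 := by exact_mod_cast h1
      exact (Nat.prime_dvd_prime_iff_eq hp (by norm_num)).1 h2
    · rintro rfl
      norm_num
  have hj : ∀ (_ : p ≠ 2), (jacobiSym m p = 0 ↔ (p : ℤ) ∣ m) := by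
    intro _
    rw [← jacobiSym.legendreSym.to_jacobiSym, legendreSym.eq_zero_iff]
    exact ZMod.intCast_zmod_eq_zero_iff_dvd _ _
  have hm6 : (p : ℤ) ∣ m ^ 6 ↔ (p : ℤ) ∣ m := ⟨hpZ.dvd_of_dvd_pow, fun h => dvd_pow h (by norm_num)⟩
  unfold Pool.Agent.N875.K17.Wm
  by_cases h4 : m % 4 = 1
  · rw [if_pos h4, Pool.Agent.N871.S17.WN_Δ h4, hpZ.dvd_mul, h17, hm6]
    refine or_congr_right ?_
    unfold chi
    by_cases hp2 : p = 2
    · subst hp2
      rw [if_pos rfl]
      constructor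
      · intro h
        exfalso
        have : (2 : ℤ) ∣ m := h
        omega
      · intro h
        exfalso
        split_ifs at h <;> omega
    · rw [if_neg hp2]
      exact (hj hp2).symm
  · rw [if_neg h4, Pool.Agent.N871.S17.Em_Δ, hpZ.dvd_mul, hpZ.dvd_mul, h17, hm6]
    unfold chi
    by_cases hp2 : p = 2
    · subst hp2
      rw [if_pos rfl, if_neg (by omega), if_neg (by omega)]
      constructor
      · intro _
        exact Or.inr rfl
      · intro _
        left; left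
        norm_num
    · rw [if_neg hp2, hj hp2]
      have h2 : ¬ (p : ℤ) ∣ 2 ^ 12 := by
        intro h
        have h1 := hpZ.dvd_of_dvd_pow h
        have h2 : p ∣ 2 := by exact_mod_cast h1
        exact hp2 ((Nat.prime_dvd_prime_iff_eq hp (by norm_num)).1 h2)
      constructor
      · rintro ((h | h) | h)
        · exact absurd h h2
        · exact Or.inl h
        · exact Or.inr h
      · rintro (h | h)
        · exact Or.inl (Or.inr h)
        · exact Or.inr h

/-- the Euler factor at `p` of the twist over `ℚ` -/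
lemma fac (m : ℤ) (hsq : Squarefree m) (p : Nat.Primes) (s : ℂ) :
    (1 - (ap (Wm m) p : ℂ) * ((p : ℕ) : ℂ) ^ (-s) +
      (if ((p : ℕ) : ℤ) ∣ (Wm m).Δ then 0 else ((p : ℕ) : ℂ) ^ (1 - 2 * s)))⁻¹ =
    (1 - (chi m p : ℂ) * (ap (WN 1) p : ℂ) * ((p : ℕ) : ℂ) ^ (-s) +
      pp p * (chi m p : ℂ) ^ 2 * (((p : ℕ) : ℂ) ^ (-s)) ^ 2)⁻¹ := by
  have hp := p.2
  have hp0 : ((p : ℕ) : ℂ) ≠ 0 := Nat.cast_ne_zero.2 hp.ne_zero
  rw [ap_Wm m p hp]
  congr 1
  have hd := dvd_disc m hsq p hp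
  unfold pp
  by_cases h17 : (p : ℕ) = 17
  · rw [if_pos h17, if_pos (hd.2 (Or.inl h17))]
    push_cast
    ring
  · rw [if_neg h17]
    rcases chi_cases m p with h | h | h
    · rw [if_pos (hd.2 (Or.inr h)), h]
      push_cast
      ring
    · rw [if_neg (fun h' => (hd.1 h').elim h17 (fun h'' => by rw [h] at h''; norm_num at h''))]
      have h1 : ((p : ℕ) : ℂ) ^ (1 - 2 * s) = (p : ℂ) * (((p : ℕ) : ℂ) ^ (-s)) ^ 2 := by
        rw [← Complex.cpow_nat_mul, show (1 - 2 * s : ℂ) = 1 + ((2 : ℕ) : ℂ) * (-s) by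
          push_cast; ring, Complex.cpow_add _ _ hp0, Complex.cpow_one]
      rw [h1, h]
      push_cast
      ring
    · rw [if_neg (fun h' => (hd.1 h').elim h17 (fun h'' => by rw [h] at h''; norm_num at h''))]
      have h1 : ((p : ℕ) : ℂ) ^ (1 - 2 * s) = (p : ℂ) * (((p : ℕ) : ℂ) ^ (-s)) ^ 2 := by
        rw [← Complex.cpow_nat_mul, show (1 - 2 * s : ℂ) = 1 + ((2 : ℕ) : ℂ) * (-s) by
          push_cast; ring, Complex.cpow_add _ _ hp0, Complex.cpow_one]
      rw [h1, h]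
      push_cast
      ring

lemma chi_one (p : ℕ) : chi 1 p = 1 := by
  unfold chi
  split_ifs with h1 h2
  · rfl
  · exact absurd (by norm_num) h2
  · exact absurd (by norm_num) h2
  · exact jacobiSym.one_left p

variable {K : Type} [Field K] [NumberField K] {m : ℤ} {r : K}

/-- the product over the places above `p` -/
lemma prod_above (hsq : Squarefree m) (h1 : m ≠ 1) (h : Qd m K r) (p : Nat.Primes)
    (F : HeightOneSpectrum (𝓞 K) → ℂ) (G : ℕ → ℂ)
    (hF : ∀ v, below v = p → (deg v = 1 ∨ deg v = 2) → F v = G (deg v)) :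
    (chi m p = 1 ∧ ∏ v : {v : HeightOneSpectrum (𝓞 K) // below v = p}, F v.1 = G 1 * G 1) ∨
    (chi m p = -1 ∧ ∏ v : {v : HeightOneSpectrum (𝓞 K) // below v = p}, F v.1 = G 2) ∨
    (chi m p = 0 ∧ ∏ v : {v : HeightOneSpectrum (𝓞 K) // below v = p}, F v.1 = G 1) := by
  classical
  rcases split_cases hsq h1 h p with
    ⟨hk, v, w, hne, hv, hw, dv, dw, hall⟩ | ⟨hk, v, hv, dv, hall⟩ | ⟨hk, v, hv, dv, hall⟩
  · left
    refine ⟨hk, ?_⟩
    have hu : (Finset.univ : Finset {v : HeightOneSpectrum (𝓞 K) // below v = p}) =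
        {⟨v, hv⟩, ⟨w, hw⟩} := by
      ext u
      simp only [Finset.mem_univ, Finset.mem_insert, Finset.mem_singleton, true_iff]
      rcases hall u.1 u.2 with h | h
      · exact Or.inl (Subtype.ext h)
      · exact Or.inr (Subtype.ext h)
    rw [hu, Finset.prod_pair (fun h => hne (congrArg Subtype.val h)), hF v hv (Or.inl dv),
      hF w hw (Or.inl dw), dv, dw]
  · right; left
    refine ⟨hk, ?_⟩
    have hu : (Finset.univ : Finset {v : HeightOneSpectrum (𝓞 K) // below v = p}) =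
        {⟨v, hv⟩} := by
      ext u
      simp only [Finset.mem_univ, Finset.mem_singleton, true_iff]
      exact Subtype.ext (hall u.1 u.2)
    rw [hu, Finset.prod_singleton, hF v hv (Or.inr dv), dv]
  · right; right
    refine ⟨hk, ?_⟩
    have hu : (Finset.univ : Finset {v : HeightOneSpectrum (𝓞 K) // below v = p}) =
        {⟨v, hv⟩} := by
      ext u
      simp only [Finset.mem_univ, Finset.mem_singleton, true_iff]
      exact Subtype.ext (hall u.1 u.2)
    rw [hu, Finset.prod_singleton, hF v hv (Or.inl dv), dv]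

/-- the local identity -/
lemma local_eq (hsq : Squarefree m) (h1 : m ≠ 1) (h : Qd m K r) (p : Nat.Primes) (s : ℂ) :
    (1 - (ap (WN 1) p : ℂ) * ((p : ℕ) : ℂ) ^ (-s) +
      (if ((p : ℕ) : ℤ) ∣ (WN 1).Δ then 0 else ((p : ℕ) : ℂ) ^ (1 - 2 * s)))⁻¹ *
    (1 - (ap (Wm m) p : ℂ) * ((p : ℕ) : ℂ) ^ (-s) +
      (if ((p : ℕ) : ℤ) ∣ (Wm m).Δ then 0 else ((p : ℕ) : ℂ) ^ (1 - 2 * s)))⁻¹ =
    ∏ v : {v : HeightOneSpectrum (𝓞 K) // below v = p}, factor (WN 1) s v.1 := by
  have hW1 : Wm 1 = WN 1 := by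
    unfold Pool.Agent.N875.K17.Wm
    rw [if_pos (by norm_num)]
  have e1 := fac 1 squarefree_one p s
  rw [hW1] at e1
  rw [e1, fac m hsq p s, chi_one]
  have hF : ∀ v : HeightOneSpectrum (𝓞 K), below v = p → (deg v = 1 ∨ deg v = 2) →
      factor (WN 1) s v =
      (fun n : ℕ => (1 - pw (ap (WN 1) p : ℂ) (pp p) n * (((p : ℕ) : ℂ) ^ (-s)) ^ n +
        (pp p) ^ n * (((p : ℕ) : ℂ) ^ (-s)) ^ (2 * n))⁻¹) (deg v) := by
    intro v hv hd
    rw [factor_eq v hd s, hv]
  rcases prod_above hsq h1 h p (factor (WN 1) s) (fun n : ℕ =>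
      (1 - pw (ap (WN 1) p : ℂ) (pp p) n * (((p : ℕ) : ℂ) ^ (-s)) ^ n +
        (pp p) ^ n * (((p : ℕ) : ℂ) ^ (-s)) ^ (2 * n))⁻¹) hF with ⟨hk, e⟩ | ⟨hk, e⟩ | ⟨hk, e⟩
  · rw [e, hk, ← mul_inv, ← mul_inv]
    congr 1
    simp only [W165.CE.pw]
    push_cast
    ring
  · rw [e, hk, ← mul_inv]
    congr 1
    simp only [W165.CE.pw]
    push_cast
    ring
  · rw [e, hk, ← mul_inv]
    congr 1
    simp only [W165.CE.pw]
    push_cast
    ring

/-- K17-LPR -/
theorem t_LPR : Pool.Agent.N875.K17.S_LPR := by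
  classical
  intro m hsq h1 K _ _ r h s f g hs hf hg
  have h2 : HasProd (fun p : Nat.Primes =>
      ∏ v : {v : HeightOneSpectrum (𝓞 K) // below v = p}, factor (WN 1) s v.1) (f * g) := by
    have h3 := HasProd.mul hf hg
    convert h3 using 1
    funext p
    exact (local_eq hsq h1 h p s).symm
  have h3 : Multipliable (factor (K := K) (WN 1) s) := multipliable_factor s hs
  rw [← (Equiv.sigmaFiberEquiv (below (K := K))).hasProd_iff]
  refine HasProd.sigma_of_hasProd h2 (fun p => ?_) ?_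
  · exact hasProd_fintype _
  · exact (Equiv.sigmaFiberEquiv (below (K := K))).multipliable_iff.2 h3

end Pool.Agent.N277.K17
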