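import Pool.Agent.N277.K17.Split
import Pool.Agent.N871.S17.Ap
import Pool.Agent.Y884.XT.LK

/-!
# The numbers of points of `17a2` over the residue fields of a quadratic field
-/

set_option autoImplicit false

namespace Pool.Agent.N277.K17

open NumberField IsDedekindDomain Filter Pool.Agent.H921R2.TatePole
open Pool.Agent.Y682.XF (base a factor pts)
open Pool.Agent.N871.S17 (WN ap_WN ap_two)
open Pool.Agent.W97.MT (ap affCount)
open W165.CE (pw pw_eq pw_luc finite_bad intCast_mem_iff)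
open Pool.Agent.H82R3.EK (luc luc_eq card_points natCast_mem_iff nm_cpow prime_cpow)
open Pool.Agent.Y884.XT (card_quot charP_quot)

/-- the equation -/
lemma equation_iff (R : Type) [CommRing R] (x y : R) :
    (base (WN 1) R).toAffine.Equation x y ↔ y ^ 2 + x * y = x ^ 3 - 4 * x ^ 2 - x := by
  rw [WeierstrassCurve.Affine.equation_iff]
  unfold base WN
  simp only [WeierstrassCurve.map, eq_intCast]
  norm_num
  constructor
  · intro h
    linear_combination h
  · intro h
    linear_combination h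

/-- the cubic form in odd characteristic -/
lemma pts_cubic (k : Type) [Field k] (h2 : (2 : k) ≠ 0) : pts (WN 1) k =
    Nat.card {x : k × k // x.2 ^ 2 = x.1 ^ 3 + ((-15 : ℤ) : k) * x.1 ^ 2 +
      ((-16 : ℤ) : k) * x.1 + ((0 : ℤ) : k)} := by
  have h4 : (4 : k) ≠ 0 := by
    rw [show (4 : k) = 2 * 2 by norm_num]
    exact mul_ne_zero h2 h2
  have h8 : (8 : k) ≠ 0 := by
    rw [show (8 : k) = 2 * 4 by norm_num]
    exact mul_ne_zero h2 h4
  have h64 : (64 : k) ≠ 0 := by
    rw [show (64 : k) = 8 * 8 by norm_num]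
    exact mul_ne_zero h8 h8
  unfold pts
  refine Nat.card_congr
    { toFun := fun x => ⟨(4 * x.1.1, 4 * (2 * x.1.2 + x.1.1)), ?_⟩
      invFun := fun x => ⟨(x.1.1 / 4, (x.1.2 / 4 - x.1.1 / 4) / 2), ?_⟩
      left_inv := fun x => ?_
      right_inv := fun x => ?_ }
  · have h := (equation_iff k x.1.1 x.1.2).1 x.2
    push_cast
    linear_combination 64 * h
  · have h := x.2
    rw [equation_iff]
    push_cast at h
    obtain ⟨X, hX⟩ : ∃ X, X = x.1.1 / 4 := ⟨_, rfl⟩
    obtain ⟨Y, hY⟩ : ∃ Y, Y = (x.1.2 / 4 - X) / 2 := ⟨_, rfl⟩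
    have e1 : x.1.1 = 4 * X := by
      rw [hX]
      field_simp
    have e2 : x.1.2 = 4 * (2 * Y + X) := by
      rw [hY]
      field_simp
      ring
    rw [← hX, ← hY]
    apply mul_left_cancel₀ h64
    rw [e1, e2] at h
    linear_combination h
  · apply Subtype.ext
    apply Prod.ext
    · show 4 * x.1.1 / 4 = x.1.1
      field_simp
    · show (4 * (2 * x.1.2 + x.1.1) / 4 - 4 * x.1.1 / 4) / 2 = x.1.2
      field_simp
      ring
  · apply Subtype.ext
    apply Prod.ext
    · show 4 * (x.1.1 / 4) = x.1.1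
      field_simp
    · show 4 * (2 * ((x.1.2 / 4 - x.1.1 / 4) / 2) + x.1.1 / 4) = x.1.2
      field_simp
      ring

/-- Hasse's bound -/
lemma pts_bound {k : Type} [Field k] [Fintype k] (hk : ringChar k ≠ 2) :
    |((Fintype.card k : ℤ) - pts (WN 1) k : ℝ)| ≤ 2 * Real.sqrt (Fintype.card k) := by
  classical
  have h2 : (2 : k) ≠ 0 := Ring.two_ne_zero hk
  rw [pts_cubic k h2]
  set P : Polynomial k := Polynomial.X ^ 3 + Polynomial.C ((-15 : ℤ) : k) * Polynomial.X ^ 2 +
    Polynomial.C ((-16 : ℤ) : k) * Polynomial.X + Polynomial.C ((0 : ℤ) : k) with hP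
  have hdeg : P.natDegree = 3 := by
    rw [hP]
    compute_degree!
  have hmon : P.Monic := by
    rw [hP]
    monicity!
  have hns : ∀ (c : k) (h : Polynomial k), P ≠ Polynomial.C c * h ^ 2 := by
    intro c h he
    have h1 := congrArg Polynomial.natDegree he
    rw [hdeg] at h1
    have hc : c ≠ 0 := by
      rintro rfl
      rw [map_zero, zero_mul, Polynomial.natDegree_zero] at h1
      omega
    rw [Polynomial.natDegree_C_mul hc, Polynomial.natDegree_pow] at h1
    omega
  have h4 := Pool.Agent.H341R2.Sharp.weil_sharp_monic hk hmon (by rw [hdeg]; norm_num) hns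
  rw [hdeg] at h4
  have h5 : ∀ x : k, P.eval x = x ^ 3 + ((-15 : ℤ) : k) * x ^ 2 + ((-16 : ℤ) : k) * x +
      ((0 : ℤ) : k) := by
    intro x
    rw [hP]
    simp only [Polynomial.eval_add, Polynomial.eval_mul, Polynomial.eval_pow, Polynomial.eval_X,
      Polynomial.eval_C]
  simp_rw [h5] at h4
  have h6 := congrArg (fun z : ℤ => (z : ℝ)) (card_points hk (fun x : k =>
    x ^ 3 + ((-15 : ℤ) : k) * x ^ 2 + ((-16 : ℤ) : k) * x + ((0 : ℤ) : k)))
  push_cast only [Int.cast_add, Int.cast_sum, Int.cast_natCast] at h6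
  rw [h6, Int.cast_natCast, show (Fintype.card k : ℝ) - (Fintype.card k +
    ∑ x : k, (quadraticChar k (x ^ 3 + ((-15 : ℤ) : k) * x ^ 2 + ((-16 : ℤ) : k) * x +
      ((0 : ℤ) : k)) : ℝ)) =
    - ∑ x : k, (quadraticChar k (x ^ 3 + ((-15 : ℤ) : k) * x ^ 2 + ((-16 : ℤ) : k) * x +
      ((0 : ℤ) : k)) : ℝ) by ring, abs_neg]
  refine h4.trans (le_of_eq ?_)
  norm_num

/-- characteristic `17` -/
lemma pts17 (k : Type) [Field k] [Fintype k] [CharP k 17] :
    (Fintype.card k : ℤ) - pts (WN 1) k = 1 := by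
  classical
  have h17 : (17 : k) = 0 := by
    have := CharP.cast_eq_zero k 17
    exact_mod_cast this
  have hk : ringChar k ≠ 2 := by
    rw [ringChar.eq k 17]; norm_num
  have h2 : (2 : k) ≠ 0 := Ring.two_ne_zero hk
  have h4 : (4 : k) ≠ 0 := by
    rw [show (4 : k) = 2 * 2 by norm_num]
    exact mul_ne_zero h2 h2
  rw [pts_cubic k h2, card_points hk (fun x : k =>
    x ^ 3 + ((-15 : ℤ) : k) * x ^ 2 + ((-16 : ℤ) : k) * x + ((0 : ℤ) : k))]
  have h1 : ∀ x : k, quadraticChar k (x ^ 3 + ((-15 : ℤ) : k) * x ^ 2 + ((-16 : ℤ) : k) * x +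
      ((0 : ℤ) : k)) = quadraticChar k x - (if x = -1 then quadraticChar k x else 0) := by
    intro x
    have e : x ^ 3 + ((-15 : ℤ) : k) * x ^ 2 + ((-16 : ℤ) : k) * x + ((0 : ℤ) : k) =
        x * (x + 1) ^ 2 := by
      push_cast
      linear_combination (-(x ^ 2) - x) * h17
    rw [e, map_mul]
    split_ifs with hx
    · rw [hx, neg_add_cancel]
      simp
    · have h3 : x + 1 ≠ 0 := by
        intro h
        exact hx (by linear_combination h)
      rw [map_pow, quadraticChar_sq_one h3, mul_one, sub_zero]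
  rw [Finset.sum_congr rfl fun x _ => h1 x, Finset.sum_sub_distrib, quadraticChar_sum_zero hk,
    Finset.sum_ite_eq' Finset.univ (-1 : k), if_pos (Finset.mem_univ _)]
  have h5 : quadraticChar k (-1) = 1 := by
    have e : (-1 : k) = 4 ^ 2 := by linear_combination (-1) * h17
    rw [e]
    exact quadraticChar_sq_one' h4
  rw [h5]
  ring

/-- characteristic two, degree at most two -/
lemma pts2 (k : Type) [Field k] [Fintype k] [CharP k 2] (n : ℕ) (hn : n = 1 ∨ n = 2)
    (hc : Fintype.card k = 2 ^ n) :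
    (Fintype.card k : ℤ) - pts (WN 1) k = if n = 1 then -1 else -3 := by
  classical
  have h2 : (2 : k) = 0 := CharTwo.two_eq_zero
  have hx3 : ∀ x : k, x ≠ 0 → x ^ 3 = 1 ∨ (n = 1 ∧ x = 1) := by
    intro x hx
    have h3 := FiniteField.pow_card_sub_one_eq_one x hx
    rw [hc] at h3
    rcases hn with rfl | rfl
    · right
      refine ⟨rfl, by simpa using h3⟩
    · left
      simpa using h3
  have hx3' : ∀ x : k, x ≠ 0 → x ^ 3 = 1 := by
    intro x hx
    rcases hx3 x hx with h | ⟨_, h⟩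
    · exact h
    · rw [h]; ring
  have e : {P : k × k // (base (WN 1) k).toAffine.Equation P.1 P.2} ≃
      Option ({x : k // x ≠ 0} × Bool) :=
    { toFun := fun P => if h : P.1.1 = 0 then none else
        some (⟨P.1.1, h⟩, if P.1.2 = P.1.1 ^ 2 then true else false)
      invFun := fun o => match o with
        | none => ⟨(0, 0), by rw [equation_iff]; ring⟩
        | some (x, b) => ⟨(x.1, if b then x.1 ^ 2 else x.1 ^ 2 + x.1), by
            rw [equation_iff]
            have h3 := hx3' x.1 x.2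
            simp only
            split_ifs
            · linear_combination (x.1) * h3 + (2 * x.1 ^ 2 + x.1) * h2
            · linear_combination (x.1) * h3 + (x.1 ^ 3 + 3 * x.1 ^ 2 + x.1) * h2⟩
      left_inv := by
        rintro ⟨⟨x, y⟩, h⟩
        rw [equation_iff] at h
        simp only at h
        by_cases hx : x = 0
        · have hy : y = 0 := by
            rw [hx] at h
            have : y ^ 2 = 0 := by linear_combination h
            exact pow_eq_zero_iff (two_ne_zero) |>.1 this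
          simp [hx, hy]
        · have h3 := hx3' x hx
          have h4 : (y - x ^ 2) * (y - x ^ 2 - x) = 0 := by
            linear_combination h + (x) * h3 + (-(x * y) - x ^ 2 * y + x ^ 3 - 2 * x ^ 2) * h2
          simp only [hx, dite_false]
          apply Subtype.ext
          apply Prod.ext
          · rfl
          · show (if (if y = x ^ 2 then true else false) = true then x ^ 2 else x ^ 2 + x) = y
            by_cases hy : y = x ^ 2
            · simp [hy]
            · have h5 : y = x ^ 2 + x := by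
                rcases mul_eq_zero.1 h4 with h6 | h6
                · exact absurd (by linear_combination h6) hy
                · linear_combination h6
              simp [h5, hx]
      right_inv := by
        rintro (_ | ⟨⟨x, hx⟩, b⟩)
        · simp
        · cases b <;> simp [hx] }
  have hcard : pts (WN 1) k = 1 + 2 * (Fintype.card k - 1) := by
    unfold pts
    rw [Nat.card_congr e, Nat.card_eq_fintype_card, Fintype.card_option, Fintype.card_prod,
      Fintype.card_bool]
    have : Fintype.card {x : k // x ≠ 0} = Fintype.card k - 1 := by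
      rw [Fintype.card_subtype_compl, Fintype.card_subtype_eq]
    rw [this]
    ring
  rw [hcard, hc]
  rcases hn with rfl | rfl
  · norm_num
  · norm_num

/-- the number `[p ≠ 17] p` -/
noncomputable def pp (p : ℕ) : ℂ := if p = 17 then 0 else p

/-- `ap` by `pts` -/
lemma ap_pts (p : ℕ) : ap (WN 1) p = (p : ℤ) - pts (WN 1) (ZMod p) := rfl

lemma ap17 : ap (WN 1) 17 = 1 := by
  have hF : Fact (Nat.Prime 17) := ⟨by norm_num⟩
  have h := pts17 (ZMod 17)
  rw [ZMod.card] at h
  rw [ap_pts]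
  exact h

lemma ap2 : ap (WN 1) 2 = -1 := by
  rw [ap_two (by norm_num)]
  norm_num

section
variable {K : Type} [Field K] [NumberField K]

lemma a_eq (v : HeightOneSpectrum (𝓞 K)) (hd : deg v = 1 ∨ deg v = 2) :
    ((a (WN 1) v : ℤ) : ℂ) = pw (ap (WN 1) (below v) : ℂ) (pp (below v)) (deg v) := by
  have hmax : v.asIdeal.IsMaximal := v.isPrime.isMaximal v.ne_bot
  letI : Field (𝓞 K ⧸ v.asIdeal) := Ideal.Quotient.field v.asIdeal
  have : Finite (𝓞 K ⧸ v.asIdeal) := Ideal.finiteQuotientOfFreeOfNeBot v.asIdeal v.ne_bot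
  letI : Fintype (𝓞 K ⧸ v.asIdeal) := Fintype.ofFinite _
  have hch := charP_quot v
  have hfp : Fact (below v : ℕ).Prime := ⟨(below v).2⟩
  obtain ⟨h1, h2, h3⟩ := nm_eq v
  have hcard : Ideal.absNorm v.asIdeal = Fintype.card (𝓞 K ⧸ v.asIdeal) := by
    rw [Ideal.absNorm_apply, Submodule.cardQuot_apply, Nat.card_eq_fintype_card]
  by_cases h7 : (below v : ℕ) = 17
  · have hpp : pp (below v) = 0 := by
      unfold pp
      rw [if_pos h7]
    rw [hpp, h7, ap17, pw_eq (α := 1) (β := 0) (by simp) (by simp), one_pow, zero_pow h2.ne',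
      add_zero]
    have hch' : CharP (𝓞 K ⧸ v.asIdeal) 17 := h7 ▸ hch
    have := pts17 (𝓞 K ⧸ v.asIdeal)
    unfold Pool.Agent.Y682.XF.a
    rw [hcard]
    rw [this, Int.cast_one]
  by_cases hp2 : (below v : ℕ) = 2
  · have hpp : pp (below v) = 2 := by
      unfold pp
      rw [hp2]
      norm_num
    have hch' : CharP (𝓞 K ⧸ v.asIdeal) 2 := hp2 ▸ hch
    have := pts2 (𝓞 K ⧸ v.asIdeal) (deg v) hd (by
      rw [← Nat.card_eq_fintype_card, card_quot, hp2])
    unfold Pool.Agent.Y682.XF.a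
    rw [hcard, this, hpp, hp2, ap2]
    rcases hd with h | h
    · rw [h]
      simp [W165.CE.pw]
    · rw [h]
      simp only [W165.CE.pw]
      norm_num
  have hpp : pp (below v) = ((below v : ℕ) : ℤ) := by
    unfold pp
    rw [if_neg h7]
    push_cast
    rfl
  rw [hpp, pw_luc]
  congr 1
  have h20 : (2 : 𝓞 K ⧸ v.asIdeal) ≠ 0 := by
    intro h
    have h' : ((2 : ℕ) : 𝓞 K ⧸ v.asIdeal) = 0 := by exact_mod_cast h
    rw [CharP.cast_eq_zero_iff (𝓞 K ⧸ v.asIdeal) (below v : ℕ)] at h'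
    exact hp2 ((Nat.prime_dvd_prime_iff_eq (below v).2 Nat.prime_two).1 h')
  have h20' : (2 : ZMod (below v : ℕ)) ≠ 0 := by
    intro h
    have h' : ((2 : ℕ) : ZMod (below v : ℕ)) = 0 := by exact_mod_cast h
    rw [ZMod.natCast_eq_zero_iff] at h'
    exact hp2 ((Nat.prime_dvd_prime_iff_eq (below v).2 Nat.prime_two).1 h')
  letI : Algebra (ZMod (below v : ℕ)) (𝓞 K ⧸ v.asIdeal) := ZMod.algebra _ _
  have hfin : Module.finrank (ZMod (below v : ℕ)) (𝓞 K ⧸ v.asIdeal) = deg v := by
    apply Nat.pow_right_injective (below v).2.two_le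
    show (below v : ℕ) ^ _ = (below v : ℕ) ^ _
    rw [FiniteField.pow_finrank_eq_natCard (below v : ℕ), card_quot]
  have e1 := Pool.Agent.Y18.JT.s_cubext (below v : ℕ) hp2 (-15) (-16) 0 (by
    intro h
    have h6 : ((below v : ℕ) : ℤ) ∣ ((2 ^ 8 * 17 ^ 2 : ℕ) : ℤ) := by
      convert h using 1
      norm_num
    have h7' : (below v : ℕ) ∣ 2 ^ 8 * 17 ^ 2 := by exact_mod_cast h6
    rcases (Nat.Prime.dvd_mul (below v).2).1 h7' with h8 | h8
    · exact hp2 ((Nat.prime_dvd_prime_iff_eq (below v).2 Nat.prime_two).1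
        ((below v).2.dvd_of_dvd_pow h8))
    · exact h7 ((Nat.prime_dvd_prime_iff_eq (below v).2 (by norm_num)).1
        ((below v).2.dvd_of_dvd_pow h8))) (𝓞 K ⧸ v.asIdeal)
  rw [hfin, ← pts_cubic (𝓞 K ⧸ v.asIdeal) h20, ← pts_cubic (ZMod (below v : ℕ)) h20'] at e1
  unfold Pool.Agent.Y682.XF.a
  rw [hcard, ap_pts]
  exact e1

lemma disc_one : (WN 1).Δ = 17 ^ 2 := by
  rw [Pool.Agent.N871.S17.WN_Δ (by norm_num)]
  norm_num

lemma disc_mem (v : HeightOneSpectrum (𝓞 K)) :
    (((WN 1).Δ : ℤ) : 𝓞 K) ∈ v.asIdeal ↔ (below v : ℕ) = 17 := by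
  have hp := (below v).2
  have hpZ : Prime ((below v : ℕ) : ℤ) := Nat.prime_iff_prime_int.1 hp
  rw [intCast_mem_iff, disc_one]
  constructor
  · intro h
    have h1 := hpZ.dvd_of_dvd_pow h
    have h2 : (below v : ℕ) ∣ 17 := by exact_mod_cast h1
    exact (Nat.prime_dvd_prime_iff_eq hp (by norm_num)).1 h2
  · intro h
    rw [h]
    norm_num

/-- the factor in terms of the prime below -/
lemma factor_eq (v : HeightOneSpectrum (𝓞 K)) (hd : deg v = 1 ∨ deg v = 2) (s : ℂ) :
    factor (WN 1) s v = (1 - pw (ap (WN 1) (below v) : ℂ) (pp (below v)) (deg v) *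
        (((below v : ℕ) : ℂ) ^ (-s)) ^ deg v +
      (pp (below v)) ^ deg v * (((below v : ℕ) : ℂ) ^ (-s)) ^ (2 * deg v))⁻¹ := by
  have hdeg : deg v ≠ 0 := (nm_eq v).2.1.ne'
  unfold factor
  rw [a_eq v hd, nm_cpow]
  by_cases h17 : (below v : ℕ) = 17
  · have hpp : pp (below v) = 0 := by
      unfold pp
      rw [if_pos h17]
    rw [if_pos ((disc_mem v).2 h17), hpp, zero_pow hdeg, zero_mul]
  · have hpp : pp (below v) = ((below v : ℕ) : ℂ) := by
      unfold pp
      rw [if_neg h17]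
    have hpc : ((Ideal.absNorm v.asIdeal : ℕ) : ℂ) ^ (1 - 2 * s) =
        (((below v : ℕ) : ℂ)) ^ deg v * (((below v : ℕ) : ℂ) ^ (-s)) ^ (2 * deg v) := by
      rw [nm_cpow, prime_cpow _ (below v).2.ne_zero, mul_pow, ← pow_mul]
    rw [if_neg (fun h => h17 ((disc_mem v).1 h)), hpp, hpc]

/-- Hasse's bound -/
lemma a_bound (v : HeightOneSpectrum (𝓞 K)) (hv : (below v : ℕ) ≠ 2) :
    |((a (WN 1) v : ℤ) : ℝ)| ≤ 2 * Real.sqrt (nm v) := by
  have hmax : v.asIdeal.IsMaximal := v.isPrime.isMaximal v.ne_bot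
  letI : Field (𝓞 K ⧸ v.asIdeal) := Ideal.Quotient.field v.asIdeal
  have : Finite (𝓞 K ⧸ v.asIdeal) := Ideal.finiteQuotientOfFreeOfNeBot v.asIdeal v.ne_bot
  letI : Fintype (𝓞 K ⧸ v.asIdeal) := Fintype.ofFinite _
  have hch := charP_quot v
  have hE : ringChar (𝓞 K ⧸ v.asIdeal) ≠ 2 := by
    rw [ringChar.eq (𝓞 K ⧸ v.asIdeal) (below v : ℕ)]; exact hv
  have hcard : Ideal.absNorm v.asIdeal = Fintype.card (𝓞 K ⧸ v.asIdeal) := by
    rw [Ideal.absNorm_apply, Submodule.cardQuot_apply, Nat.card_eq_fintype_card]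
  have h4 := pts_bound (k := 𝓞 K ⧸ v.asIdeal) hE
  unfold Pool.Agent.Y682.XF.a nm
  rw [hcard]
  push_cast at h4 ⊢
  exact h4

open Classical in
/-- the part of the factor different from one -/
lemma factor_sub_bound (v : HeightOneSpectrum (𝓞 K)) (hv : (below v : ℕ) ≠ 2) (s : ℂ)
    (hs : 3 / 2 < s.re) (hsmall : (nm v : ℝ) ^ (-(s.re - 1 / 2)) ≤ 1 / 6) :
    ‖factor (WN 1) s v - 1‖ ≤ 6 * (nm v : ℝ) ^ (-(s.re - 1 / 2)) := by
  have hn0 : (0 : ℝ) < nm v := by
    have := two_le_nm v
    exact_mod_cast (by omega : 0 < nm v)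
  have hn1 : (1 : ℝ) ≤ nm v := by
    have := two_le_nm v
    exact_mod_cast (by omega : 1 ≤ nm v)
  have hb := a_bound v hv
  unfold factor
  set t : ℤ := a (WN 1) v with ht
  set w : ℝ := (nm v : ℝ) ^ (-(s.re - 1 / 2)) with hw
  have e1 : ‖((Ideal.absNorm v.asIdeal : ℕ) : ℂ) ^ (-s)‖ = (nm v : ℝ) ^ (-s.re) := by
    have := Complex.norm_natCast_cpow_of_pos (n := nm v) (by exact_mod_cast hn0) (-s)
    rw [Complex.neg_re] at this
    exact this
  have e2 : ‖((Ideal.absNorm v.asIdeal : ℕ) : ℂ) ^ (1 - 2 * s)‖ = (nm v : ℝ) ^ (1 - 2 * s.re) := by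
    have := Complex.norm_natCast_cpow_of_pos (n := nm v) (by exact_mod_cast hn0) (1 - 2 * s)
    have h2 : (1 - 2 * s).re = 1 - 2 * s.re := by simp
    rw [h2] at this
    exact this
  set B : ℂ := (if (((WN 1).Δ : ℤ) : 𝓞 K) ∈ v.asIdeal then 0 else
    ((Ideal.absNorm v.asIdeal : ℕ) : ℂ) ^ (1 - 2 * s)) with hB
  set u : ℂ := -((t : ℂ) * ((Ideal.absNorm v.asIdeal : ℕ) : ℂ) ^ (-s)) + B with hu
  have hu1 : ‖u‖ ≤ 3 * w := by
    have h1 : ‖(t : ℂ) * ((Ideal.absNorm v.asIdeal : ℕ) : ℂ) ^ (-s)‖ ≤ 2 * w := by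
      rw [norm_mul, e1, Complex.norm_intCast]
      calc |(t : ℝ)| * (nm v : ℝ) ^ (-s.re) ≤ (2 * Real.sqrt (nm v)) * (nm v : ℝ) ^ (-s.re) :=
            mul_le_mul_of_nonneg_right hb (by positivity)
        _ = 2 * w := by
            rw [hw, Real.sqrt_eq_rpow, mul_assoc, ← Real.rpow_add hn0]
            congr 2
            ring
    have h2 : ‖B‖ ≤ w := by
      rw [hB]
      split_ifs
      · rw [norm_zero, hw]
        positivity
      · rw [e2, hw]
        apply Real.rpow_le_rpow_of_exponent_le hn1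
        linarith
    calc ‖u‖ ≤ ‖-((t : ℂ) * ((Ideal.absNorm v.asIdeal : ℕ) : ℂ) ^ (-s))‖ + _ := norm_add_le _ _
      _ ≤ 2 * w + w := add_le_add (by rwa [norm_neg]) h2
      _ = 3 * w := by ring
  have e3 : (1 - (t : ℂ) * ((Ideal.absNorm v.asIdeal : ℕ) : ℂ) ^ (-s) + B) = 1 + u := by
    rw [hu]; ring
  rw [e3]
  have hu2 : ‖u‖ ≤ 1 / 2 := by linarith
  have h3 : 1 / 2 ≤ ‖1 + u‖ := by
    have := norm_sub_norm_le (1 : ℂ) (-u)
    rw [sub_neg_eq_add, norm_neg, norm_one] at this
    linarith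
  have hne : 1 + u ≠ 0 := by
    intro h
    rw [h, norm_zero] at h3
    linarith
  have e4 : (1 + u)⁻¹ - 1 = -u / (1 + u) := by field_simp; ring
  rw [e4, norm_div, norm_neg, div_le_iff₀ (by linarith)]
  nlinarith [norm_nonneg u]

lemma multipliable_factor (s : ℂ) (hs : 3 / 2 < s.re) :
    Multipliable (factor (K := K) (WN 1) s) := by
  have hsum := nm_summable (K := K) (x := s.re - 1 / 2) (by linarith)
  have h1 : Summable (fun v : HeightOneSpectrum (𝓞 K) => ‖factor (WN 1) s v - 1‖) := by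
    refine Summable.of_norm_bounded_eventually (hsum.mul_left 6) ?_
    have h2 := hsum.tendsto_cofinite_zero.eventually (Iio_mem_nhds (by norm_num : (0 : ℝ) < 1 / 6))
    have h3 : ∀ᶠ v : HeightOneSpectrum (𝓞 K) in cofinite, ¬ ((below v : ℕ) : ℤ) ∣ 2 := by
      rw [Filter.eventually_cofinite]
      simp only [not_not]
      exact finite_bad _ (by norm_num)
    filter_upwards [h2, h3] with v hv hv3
    rw [norm_norm]
    exact factor_sub_bound v (fun h => hv3 (by rw [h]; norm_num)) s hs (le_of_lt hv)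
  have h2 := multipliable_one_add_of_summable h1
  refine h2.congr (fun v => ?_)
  ring

end

end Pool.Agent.N277.K17
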