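import Pool.Agent.N875.K17.Stm
import Pool.Agent.R475.LP.Split

/-!
# The decomposition of the primes in the quadratic field `ℚ(√m)`, all squarefree `m ≠ 1`

Adaptation of `Pool/Agent/R475/LP/Split.lean`.
-/

set_option autoImplicit false

namespace Pool.Agent.N277.K17

open NumberField IsDedekindDomain Pool.Agent.H921R2.TatePole
open Pool.Agent.N875.K17 (Qd)
open Pool.Agent.R475.LP (exists_place below_eq int_mem norm_p deg_le two_places deg_one_int)

/-- the quadratic symbol -/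
def chi (m : ℤ) (p : ℕ) : ℤ :=
  if p = 2 then (if m % 8 = 1 then 1 else if m % 8 = 5 then -1 else 0) else jacobiSym m p

section
variable {K : Type} [Field K] [NumberField K]

/-- the split case -/
lemma split_of (hf : Module.finrank ℚ K = 2) (p : Nat.Primes) (θ y : 𝓞 K) (c₁ c₂ : ℤ)
    (h : (θ - (c₁ : 𝓞 K)) * (θ - (c₂ : 𝓞 K)) = ((p : ℕ) : 𝓞 K) * y)
    (hc : ¬ ((p : ℕ) : ℤ) ∣ c₁ - c₂) (hn : ∀ (c : ℤ) (x : 𝓞 K), θ - (c : 𝓞 K) ≠ ((p : ℕ) : 𝓞 K) * x) :
    ∃ v w : HeightOneSpectrum (𝓞 K), v ≠ w ∧ below v = p ∧ below w = p ∧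
      deg v = 1 ∧ deg w = 1 ∧ ∀ u : HeightOneSpectrum (𝓞 K), below u = p → u = v ∨ u = w := by
  have hmul : ∀ c c' : ℤ, (θ - (c : 𝓞 K)) * (θ - (c' : 𝓞 K)) = ((p : ℕ) : 𝓞 K) * y →
      ∃ v : HeightOneSpectrum (𝓞 K), below v = p ∧ θ - (c : 𝓞 K) ∈ v.asIdeal := by
    intro c c' hcc
    obtain ⟨v, hv⟩ := exists_place (K := K) p
      (Ideal.span {(((p : ℕ) : 𝓞 K)), θ - (c : 𝓞 K)}) (by
        intro htop
        rw [Ideal.eq_top_iff_one, Ideal.mem_span_pair] at htop
        obtain ⟨a, b, hab⟩ := htop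
        refine hn c' (a * (θ - (c' : 𝓞 K)) + b * y) ?_
        linear_combination (-(θ - (c' : 𝓞 K))) * hab + b * hcc) (Ideal.subset_span (by simp))
    exact ⟨v, below_eq p v (hv (Ideal.subset_span (by simp))), hv (Ideal.subset_span (by simp))⟩
  obtain ⟨v, hv1, hv2⟩ := hmul c₁ c₂ h
  obtain ⟨w, hw1, hw2⟩ := hmul c₂ c₁ (by rw [← h]; ring)
  have hne : v ≠ w := by
    intro h1
    rw [← h1] at hw2
    have h2 : ((c₁ - c₂ : ℤ) : 𝓞 K) ∈ v.asIdeal := by
      have e : ((c₁ - c₂ : ℤ) : 𝓞 K) = (θ - (c₂ : 𝓞 K)) - (θ - (c₁ : 𝓞 K)) := by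
        push_cast
        ring
      rw [e]
      exact Ideal.sub_mem _ hw2 hv2
    have h3 := int_mem v _ h2
    rw [hv1] at h3
    exact hc h3
  obtain ⟨h1, h2, _, h3⟩ := two_places hf v w hne (hv1.trans hw1.symm)
  rw [hv1] at h3
  exact ⟨v, w, hne, hv1, hw1, h1, h2, h3⟩

/-- a place above `p` -/
lemma exists_above (hf : Module.finrank ℚ K = 2) (p : Nat.Primes) :
    ∃ v : HeightOneSpectrum (𝓞 K), below v = p := by
  obtain ⟨v, hv⟩ := exists_place (K := K) p (Ideal.span {(((p : ℕ) : 𝓞 K))}) (by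
    intro htop
    have h1 := norm_p hf p
    rw [htop, Ideal.absNorm_top] at h1
    have := Nat.pow_lt_pow_left p.2.one_lt (two_ne_zero)
    omega) (Ideal.subset_span rfl)
  exact ⟨v, below_eq p v (hv (Ideal.subset_span rfl))⟩

/-- the inert case -/
lemma inert_of (hf : Module.finrank ℚ K = 2) (p : Nat.Primes) (θ : 𝓞 K) (s t : ℤ)
    (h : θ ^ 2 = (s : 𝓞 K) * θ + (t : 𝓞 K)) (hc : ∀ c : ℤ, ¬ ((p : ℕ) : ℤ) ∣ c ^ 2 - s * c - t) :
    ∃ v : HeightOneSpectrum (𝓞 K), below v = p ∧ deg v = 2 ∧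
      ∀ u : HeightOneSpectrum (𝓞 K), below u = p → u = v := by
  have hd2 : ∀ v : HeightOneSpectrum (𝓞 K), below v = p → deg v ≠ 1 := by
    intro v hv h1
    obtain ⟨c, hcv⟩ := deg_one_int v h1 θ
    apply hc c
    have h2 : ((c ^ 2 - s * c - t : ℤ) : 𝓞 K) ∈ v.asIdeal := by
      have e : ((c ^ 2 - s * c - t : ℤ) : 𝓞 K) =
          - ((θ - (c : 𝓞 K)) * (θ + (c : 𝓞 K) - (s : 𝓞 K))) := by
        push_cast
        linear_combination h
      rw [e]
      exact neg_mem (Ideal.mul_mem_right _ _ hcv)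
    have h3 := int_mem v _ h2
    rwa [hv] at h3
  obtain ⟨v, hv⟩ := exists_above hf p
  refine ⟨v, hv, ?_, ?_⟩
  · rcases (deg_le hf v).1 with h1 | h1
    · exact absurd h1 (hd2 v hv)
    · exact h1
  · intro u hu
    by_contra hne
    obtain ⟨h1, _⟩ := two_places hf u v hne (hu.trans hv.symm)
    exact hd2 u hu h1

/-- the ramified case -/
lemma ramified_of (hf : Module.finrank ℚ K = 2) (p : Nat.Primes) (δ y : 𝓞 K)
    (h : δ ^ 2 = ((p : ℕ) : 𝓞 K) * y) (hn : ∀ x : 𝓞 K, δ ≠ ((p : ℕ) : 𝓞 K) * x) :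
    ∃ v : HeightOneSpectrum (𝓞 K), below v = p ∧ deg v = 1 ∧
      ∀ u : HeightOneSpectrum (𝓞 K), below u = p → u = v := by
  have hδv : ∀ v : HeightOneSpectrum (𝓞 K), below v = p → δ ∈ v.asIdeal := by
    intro v hv
    have h1 : δ ^ 2 ∈ v.asIdeal := by
      rw [h]
      apply Ideal.mul_mem_right
      have := (nm_eq v).2.2
      rwa [hv] at this
    exact v.isPrime.mem_of_pow_mem 2 h1
  have hnot : δ ∉ Ideal.span {(((p : ℕ) : 𝓞 K))} := by
    intro h1
    obtain ⟨x, hx⟩ := Ideal.mem_span_singleton'.1 h1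
    exact hn x (by rw [← hx]; ring)
  obtain ⟨v, hv⟩ := exists_above hf p
  refine ⟨v, hv, ?_, ?_⟩
  · rcases (deg_le hf v).1 with h1 | h1
    · exact h1
    · exfalso
      have h2 := (deg_le hf v).2 h1
      rw [hv] at h2
      apply hnot
      rw [← h2]
      exact hδv v hv
  · intro u hu
    by_contra hne
    obtain ⟨_, _, h3, _⟩ := two_places hf u v hne (hu.trans hv.symm)
    rw [hu] at h3
    apply hnot
    rw [← h3]
    have hco : u.asIdeal * v.asIdeal = u.asIdeal ⊓ v.asIdeal := by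
      apply Ideal.mul_eq_inf_of_coprime
      exact (u.isPrime.isMaximal u.ne_bot).coprime_of_ne (v.isPrime.isMaximal v.ne_bot)
        (fun h => hne (HeightOneSpectrum.ext h))
    rw [hco]
    exact ⟨hδv u hu, hδv v hv⟩

variable {m : ℤ} {r : K}

lemma fin2 (hsq : Squarefree m) (h1 : m ≠ 1) (h : Qd m K r) : Module.finrank ℚ K = 2 :=
  Pool.Agent.R428.OP.Disc.finr (fun q => Pool.Agent.R428.OP.Disc.not_rat hsq h1 h.hr q) h.hK

/-- coordinates of integers -/
lemma coords (hsq : Squarefree m) (h1 : m ≠ 1) (h : Qd m K r) (x : 𝓞 K) :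
    ∃ t u : ℤ, 4 ∣ t ^ 2 - m * u ^ 2 ∧ 2 * (x : K) = t + u * r :=
  Pool.Agent.R428.OP.Disc.coords
    (fun q => Pool.Agent.R428.OP.Disc.not_rat hsq h1 h.hr q) hsq h.hr h.hK (x : K) x.2

/-- comparison of the coordinates -/
lemma lin (hsq : Squarefree m) (h1 : m ≠ 1) (h : Qd m K r) (a b a' b' : ℤ)
    (e : (a : K) + b * r = a' + b' * r) : a = a' ∧ b = b' := by
  have hb : b = b' := by
    by_contra hne
    have h1' : ((b - b' : ℤ) : ℚ) ≠ 0 := by
      have : b - b' ≠ 0 := sub_ne_zero.2 hne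
      exact_mod_cast this
    apply Pool.Agent.R428.OP.Disc.not_rat hsq h1 h.hr (((a' - a : ℤ) : ℚ) / ((b - b' : ℤ) : ℚ))
    rw [map_div₀]
    have h2 : algebraMap ℚ K ((b - b' : ℤ) : ℚ) ≠ 0 := by
      rw [Ne, map_eq_zero]
      exact h1'
    rw [div_eq_iff h2]
    simp only [map_intCast]
    push_cast
    linear_combination -e
  refine ⟨?_, hb⟩
  rw [hb] at e
  have : (a : K) = a' := by linear_combination e
  exact_mod_cast this

/-- the square root as an integer of the field -/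
lemma sqrt_int (h : Qd m K r) : ∃ δ : 𝓞 K, (δ : K) = r ∧ δ ^ 2 = ((m : ℤ) : 𝓞 K) := by
  have hi : IsIntegral ℤ r := by
    have h2 : IsIntegral ℤ (r ^ 2) := by
      rw [h.hr]; exact isIntegral_algebraMap (R := ℤ) (A := K) (x := m)
    exact h2.of_pow (by norm_num)
  obtain ⟨δ, hδ⟩ : ∃ δ : 𝓞 K, (δ : K) = r := ⟨⟨r, hi⟩, rfl⟩
  refine ⟨δ, hδ, ?_⟩
  apply RingOfIntegers.ext
  have e2 : ((δ ^ 2 : 𝓞 K) : K) = (δ : K) ^ 2 := by simp
  rw [e2, hδ, h.hr]
  simp

/-- the generator of the ring of integers for `m = 1` modulo `4` -/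
lemma exists_om (h : Qd m K r) (h4 : m % 4 = 1) : ∃ θ : 𝓞 K, 2 * (θ : K) = 1 + r ∧
    θ ^ 2 - θ = (((m - 1) / 4 : ℤ) : 𝓞 K) := by
  obtain ⟨θ, hθ⟩ : ∃ θ : 𝓞 K, (θ : K) = (1 + r) / 2 :=
    ⟨⟨_, Pool.Agent.R428.OP.Disc.int_omega h.hr h4⟩, rfl⟩
  refine ⟨θ, by rw [hθ]; field_simp, ?_⟩
  obtain ⟨k, hm⟩ : ∃ k : ℤ, m = 4 * k + 1 := ⟨m / 4, by omega⟩
  have e : (m - 1) / 4 = k := by omega
  rw [e]
  apply RingOfIntegers.ext
  have h1 := h.hr
  rw [hm] at h1
  push_cast at h1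
  have e1 : ((θ ^ 2 - θ : 𝓞 K) : K) = (θ : K) ^ 2 - (θ : K) := by simp
  rw [e1, hθ]
  have e2 : (((k : ℤ) : 𝓞 K) : K) = (k : K) := by simp
  rw [e2]
  linear_combination (1 / 4) * h1

/-- `r` is not an integer modulo an odd prime -/
lemma root_ne (hsq : Squarefree m) (h1 : m ≠ 1) (h : Qd m K r) (p : Nat.Primes)
    (hp2 : (p : ℕ) ≠ 2) (δ : 𝓞 K) (hδ : (δ : K) = r) (c : ℤ) (x : 𝓞 K) :
    δ - (c : 𝓞 K) ≠ ((p : ℕ) : 𝓞 K) * x := by
  intro hx
  obtain ⟨t, u, _, htu⟩ := coords hsq h1 h x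
  have h3 := congrArg (algebraMap (𝓞 K) K) hx
  rw [map_sub, map_mul, map_natCast, map_intCast] at h3
  have h4 : algebraMap (𝓞 K) K δ = r := hδ
  have h5 : algebraMap (𝓞 K) K x = (x : K) := rfl
  rw [h4, h5] at h3
  have h2 : ((-2 * c : ℤ) : K) + ((2 : ℤ) : K) * r =
      (((p : ℕ) * t : ℤ) : K) + (((p : ℕ) * u : ℤ) : K) * r := by
    push_cast
    linear_combination 2 * h3 + ((p : ℕ) : K) * htu
  have h6 := (lin hsq h1 h _ _ _ _ h2).2
  have h7 : (p : ℕ) ∣ 2 := by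
    have : ((p : ℕ) : ℤ) ∣ 2 := ⟨u, h6⟩
    exact_mod_cast this
  exact hp2 ((Nat.prime_dvd_prime_iff_eq p.2 Nat.prime_two).1 h7)

/-- the decomposition of the primes in `K` -/
theorem split_cases (hsq : Squarefree m) (h1 : m ≠ 1) (h : Qd m K r) (p : Nat.Primes) :
    (chi m p = 1 ∧ ∃ v w : HeightOneSpectrum (𝓞 K), v ≠ w ∧ below v = p ∧ below w = p ∧
      deg v = 1 ∧ deg w = 1 ∧ ∀ u : HeightOneSpectrum (𝓞 K), below u = p → u = v ∨ u = w) ∨
    (chi m p = -1 ∧ ∃ v : HeightOneSpectrum (𝓞 K), below v = p ∧ deg v = 2 ∧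
      ∀ u : HeightOneSpectrum (𝓞 K), below u = p → u = v) ∨
    (chi m p = 0 ∧ ∃ v : HeightOneSpectrum (𝓞 K), below v = p ∧ deg v = 1 ∧
      ∀ u : HeightOneSpectrum (𝓞 K), below u = p → u = v) := by
  have hf := fin2 hsq h1 h
  have hp := p.2
  have hpZ : Prime (((p : ℕ) : ℤ)) := Nat.prime_iff_prime_int.1 hp
  obtain ⟨δ, hδ1, hδ2⟩ := sqrt_int h
  by_cases hp2 : (p : ℕ) = 2
  · unfold chi
    rw [if_pos hp2]
    have hm0 : m % 4 ≠ 0 := by
      intro h0
      have h2 : (2 : ℤ) * 2 ∣ m := by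
        have : (4 : ℤ) ∣ m := Int.dvd_of_emod_eq_zero h0
        simpa using this
      have := hsq 2 h2
      rw [Int.isUnit_iff] at this
      omega
    have hpc : (((p : ℕ) : 𝓞 K)) = 2 := by rw [hp2]; norm_num
    rcases (by omega : m % 4 = 1 ∨ m % 4 = 2 ∨ m % 4 = 3) with h4 | h4 | h4
    · obtain ⟨θ, hθ1, hθ2⟩ := exists_om h h4
      rcases (by omega : m % 8 = 1 ∨ m % 8 = 5) with h8 | h8
      · left
        refine ⟨by rw [if_pos h8], ?_⟩
        obtain ⟨k, hk⟩ : ∃ k : ℤ, (m - 1) / 4 = 2 * k := ⟨(m - 1) / 8, by omega⟩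
        refine split_of hf p θ (k : 𝓞 K) 0 1 ?_ ?_ ?_
        · rw [hk] at hθ2
          rw [hpc]
          push_cast at hθ2 ⊢
          linear_combination hθ2
        · rw [hp2]; norm_num
        · intro c x hx
          obtain ⟨t, u, _, htu⟩ := coords hsq h1 h x
          have h3 := congrArg (algebraMap (𝓞 K) K) hx
          rw [hpc, map_sub, map_mul, map_ofNat, map_intCast] at h3
          have h5 : ∀ z : 𝓞 K, algebraMap (𝓞 K) K z = (z : K) := fun _ => rfl
          rw [h5, h5] at h3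
          have h2 : ((1 - 2 * c : ℤ) : K) + ((1 : ℤ) : K) * r =
              ((2 * t : ℤ) : K) + ((2 * u : ℤ) : K) * r := by
            push_cast
            linear_combination 2 * h3 - hθ1 + 2 * htu
          have := (lin hsq h1 h _ _ _ _ h2).2
          omega
      · right; left
        refine ⟨by rw [if_neg (by omega), if_pos h8], ?_⟩
        refine inert_of hf p θ 1 ((m - 1) / 4) ?_ ?_
        · push_cast
          linear_combination hθ2
        · intro c
          rw [hp2]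
          have h3 : (c ^ 2 - 1 * c) % 2 = 0 := by
            rcases Int.emod_two_eq_zero_or_one c with h | h
            · obtain ⟨c', rfl⟩ : ∃ c', c = 2 * c' := ⟨c / 2, by omega⟩
              ring_nf
              omega
            · obtain ⟨c', rfl⟩ : ∃ c', c = 2 * c' + 1 := ⟨c / 2, by omega⟩
              ring_nf
              omega
          push_cast
          omega
    · right; right
      refine ⟨by rw [if_neg (by omega), if_neg (by omega)], ?_⟩
      obtain ⟨k, hk⟩ : ∃ k : ℤ, m = 2 * k := ⟨m / 2, by omega⟩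
      refine ramified_of hf p δ (k : 𝓞 K) ?_ ?_
      · rw [hδ2, hk, hpc]; push_cast; ring
      · intro x hx
        obtain ⟨t, u, hd, htu⟩ := coords hsq h1 h x
        have h3 := congrArg (algebraMap (𝓞 K) K) hx
        rw [hpc, map_mul, map_ofNat] at h3
        have h5 : ∀ z : 𝓞 K, algebraMap (𝓞 K) K z = (z : K) := fun _ => rfl
        rw [h5, h5, hδ1] at h3
        have h2 : ((0 : ℤ) : K) + ((1 : ℤ) : K) * r = ((t : ℤ) : K) + ((u : ℤ) : K) * r := by
          push_cast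
          linear_combination h3 + htu
        obtain ⟨e1, e2⟩ := lin hsq h1 h _ _ _ _ h2
        rw [← e1, ← e2] at hd
        omega
    · right; right
      refine ⟨by rw [if_neg (by omega), if_neg (by omega)], ?_⟩
      obtain ⟨k, hk⟩ : ∃ k : ℤ, m + 1 = 2 * k := ⟨(m + 1) / 2, by omega⟩
      refine ramified_of hf p (1 + δ) ((k : 𝓞 K) + δ) ?_ ?_
      · have hk' : ((m : ℤ) : 𝓞 K) + 1 = 2 * (k : 𝓞 K) := by
          have := congrArg (Int.cast : ℤ → 𝓞 K) hk
          push_cast at this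
          exact this
        rw [hpc]
        linear_combination hδ2 + hk'
      · intro x hx
        obtain ⟨t, u, hd, htu⟩ := coords hsq h1 h x
        have h3 := congrArg (algebraMap (𝓞 K) K) hx
        rw [hpc, map_mul, map_ofNat, map_add, map_one] at h3
        have h5 : ∀ z : 𝓞 K, algebraMap (𝓞 K) K z = (z : K) := fun _ => rfl
        rw [h5, h5, hδ1] at h3
        have h2 : ((1 : ℤ) : K) + ((1 : ℤ) : K) * r = ((t : ℤ) : K) + ((u : ℤ) : K) * r := by
          push_cast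
          linear_combination h3 + htu
        obtain ⟨e1, e2⟩ := lin hsq h1 h _ _ _ _ h2
        rw [← e1, ← e2] at hd
        omega
  · unfold chi
    rw [if_neg hp2]
    have hF : Fact (p : ℕ).Prime := ⟨hp⟩
    rcases jacobiSym.trichotomy m p with hk | hk | hk
    · right; right
      refine ⟨hk, ?_⟩
      rw [← jacobiSym.legendreSym.to_jacobiSym] at hk
      obtain ⟨k, hmk⟩ := (ZMod.intCast_zmod_eq_zero_iff_dvd _ _).1 ((legendreSym.eq_zero_iff (p : ℕ) _).1 hk)
      refine ramified_of hf p δ (k : 𝓞 K) ?_ ?_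
      · rw [hδ2, hmk]; push_cast; ring
      · intro x hx
        exact root_ne hsq h1 h p hp2 δ hδ1 0 x (by rw [← hx]; simp)
    · left
      refine ⟨hk, ?_⟩
      rw [← jacobiSym.legendreSym.to_jacobiSym] at hk
      have h0 : (m : ZMod (p : ℕ)) ≠ 0 := by
        intro h0
        rw [(legendreSym.eq_zero_iff (p : ℕ) _).2 h0] at hk
        exact zero_ne_one hk
      obtain ⟨c', hc'⟩ := (legendreSym.eq_one_iff (p : ℕ) h0).1 hk
      obtain ⟨c, rfl⟩ := ZMod.intCast_surjective c'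
      obtain ⟨k, hk'⟩ : ((p : ℕ) : ℤ) ∣ m - c * c := by
        rw [← ZMod.intCast_zmod_eq_zero_iff_dvd]
        push_cast
        rw [hc', sub_self]
      refine split_of hf p δ (k : 𝓞 K) c (-c) ?_ ?_ ?_
      · have := congrArg (Int.cast : ℤ → 𝓞 K) hk'
        push_cast at this ⊢
        linear_combination hδ2 + this
      · intro h3
        have h4 : ((p : ℕ) : ℤ) ∣ 2 * c := by
          have : c - -c = 2 * c := by ring
          rwa [this] at h3
        rcases hpZ.dvd_or_dvd h4 with h5 | h5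
        · have h7 : (p : ℕ) ∣ 2 := by exact_mod_cast h5
          exact hp2 ((Nat.prime_dvd_prime_iff_eq hp Nat.prime_two).1 h7)
        · apply h0
          rw [hc', (ZMod.intCast_zmod_eq_zero_iff_dvd _ _).2 h5, mul_zero]
      · exact root_ne hsq h1 h p hp2 δ hδ1
    · right; left
      refine ⟨hk, ?_⟩
      rw [← jacobiSym.legendreSym.to_jacobiSym] at hk
      refine inert_of hf p δ 0 m ?_ ?_
      · rw [hδ2]; push_cast; ring
      · intro c hc
        rw [legendreSym.eq_neg_one_iff (p : ℕ)] at hk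
        apply hk
        refine ⟨(c : ZMod (p : ℕ)), ?_⟩
        have h5 : ((c ^ 2 - 0 * c - m : ℤ) : ZMod (p : ℕ)) = 0 :=
          (ZMod.intCast_zmod_eq_zero_iff_dvd _ _).2 hc
        push_cast at h5
        linear_combination -h5

end

end Pool.Agent.N277.K17
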